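import Pool.Agent.H931R3.LAMain

/-!
# Linear arboricity of graphs with a 2-factorization into long cycles
-/

set_option autoImplicit false

namespace Pool.Agent.H250R3.LAC

open SimpleGraph H931R3.LA

theorem acyclic_of_pos {V : Type} (F : SimpleGraph V) (D : V → ℕ)
    (h1 : ∀ u v, F.Adj u v → D u ≠ D v)
    (h2 : ∀ v u w, F.Adj v u → F.Adj v w → D u < D v → D w < D v → u = w) : F.IsAcyclic := by
  classical
  intro v c hc
  obtain ⟨m, hm, hmax⟩ := (c.support.toFinset).exists_max_image D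
    ⟨v, by simp⟩
  have hm' : m ∈ c.support := by simpa using hm
  have hc' : (c.rotate _ hm').IsCycle := hc.rotate hm'
  set c' := c.rotate _ hm' with hcdef
  have hne := hc'.snd_ne_penultimate
  have hnil : ¬ c'.Nil := hc'.not_nil
  have ha : F.Adj m c'.snd := c'.adj_snd hnil
  have hb : F.Adj m c'.penultimate := (c'.adj_penultimate hnil).symm
  have hs : ∀ w, w ∈ c'.support → w ∈ c.support := by
    intro w hw
    exact (Walk.mem_support_rotate_iff ..).mp hw
  have hle : ∀ w, w ∈ c'.support → D w ≤ D m := fun w hw =>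
    hmax w (by simpa using hs w hw)
  have l1 : D c'.snd < D m :=
    lt_of_le_of_ne (hle _ (c'.getVert_mem_support 1)) (fun h => h1 _ _ ha h.symm)
  have l2 : D c'.penultimate < D m :=
    lt_of_le_of_ne (hle _ (c'.getVert_mem_support _)) (fun h => h1 _ _ hb h.symm)
  exact hne (h2 m _ _ ha hb l1 l2)

/-- Removing from each cycle of a permutation at least one edge leaves a linear forest. -/
theorem forest {V : Type} [Finite V] (σ : Equiv.Perm V) (X : Set V)
    (hX : ∀ v, ∃ x ∈ X, σ.SameCycle v x) :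
    IsLF (SimpleGraph.fromRel (fun u v => σ u = v ∧ u ∉ X)) := by
  classical
  have hex : ∀ v, ∃ n : ℕ, (σ ^ n) v ∈ X := by
    intro v
    obtain ⟨x, hx, hs⟩ := hX v
    obtain ⟨n, -, hn⟩ := hs.exists_pow_eq'
    exact ⟨n, hn ▸ hx⟩
  let D : V → ℕ := fun v => Nat.find (hex v)
  have hD : ∀ u, u ∉ X → D u = D (σ u) + 1 := by
    intro u hu
    have h0 : D u ≠ 0 := by
      intro h
      have := Nat.find_spec (hex u)
      rw [show Nat.find (hex u) = 0 from h] at this
      exact hu this
    obtain ⟨k, hk⟩ := Nat.exists_eq_succ_of_ne_zero h0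
    have h1 : (σ ^ k) (σ u) ∈ X := by
      have := Nat.find_spec (hex u)
      rw [show Nat.find (hex u) = k.succ from hk, Nat.succ_eq_add_one, pow_succ,
        Equiv.Perm.mul_apply] at this
      exact this
    have h2 : D (σ u) ≤ k := Nat.find_min' (hex (σ u)) h1
    have h3 : k ≤ D (σ u) := by
      by_contra hlt
      push Not at hlt
      have h4 : (σ ^ (D (σ u) + 1)) u ∈ X := by
        rw [pow_succ, Equiv.Perm.mul_apply]
        exact Nat.find_spec (hex (σ u))
      have h5 : D u ≤ D (σ u) + 1 := Nat.find_min' (hex u) h4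
      omega
    omega
  constructor
  · refine acyclic_of_pos _ D ?_ ?_
    · intro u v h
      rw [fromRel_adj] at h
      rcases h with ⟨-, ⟨rfl, hu⟩ | ⟨rfl, hv⟩⟩
      · have := hD u hu; omega
      · have := hD v hv; omega
    · intro v u w hu hw h3 h4
      rw [fromRel_adj] at hu hw
      have key : ∀ t, (v ≠ t ∧ ((σ v = t ∧ v ∉ X) ∨ (σ t = v ∧ t ∉ X))) → D t < D v → t = σ v := by
        rintro t ⟨-, ⟨h, -⟩ | ⟨h, ht⟩⟩ hlt
        · exact h.symm
        · have := hD t ht
          rw [h] at this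
          omega
      rw [key u hu h3, key w hw h4]
  · intro v
    have hsub : (fromRel (fun u v => σ u = v ∧ u ∉ X)).neighborSet v ⊆ {σ v, σ.symm v} := by
      intro w hw
      rw [mem_neighborSet, fromRel_adj] at hw
      rcases hw with ⟨-, ⟨h, -⟩ | ⟨h, -⟩⟩
      · left; exact h.symm
      · right
        rw [Set.mem_singleton_iff, ← h, Equiv.symm_apply_apply]
    exact (Set.ncard_le_ncard hsub (Set.toFinite _)).trans (by
      have := Set.ncard_insert_le (σ v) {σ.symm v}
      rwa [Set.ncard_singleton] at this)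

theorem matching_lf {V : Type} [Finite V] (F : SimpleGraph V)
    (h : ∀ v u w, F.Adj v u → F.Adj v w → u = w) : IsLF F := by
  constructor
  · intro v c hc
    have hnil : ¬ c.Nil := hc.not_nil
    exact hc.snd_ne_penultimate (h v _ _ (c.adj_snd hnil) (c.adj_penultimate hnil).symm)
  · intro v
    have : (F.neighborSet v).Subsingleton := fun u hu w hw => h v u w hu hw
    exact (Set.ncard_le_one_iff_subsingleton.mpr this).trans one_le_two

/-- The selection statement (proved with the local lemma). -/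
def Pick : Prop :=
  ∀ (V : Type) [Finite V] (d : ℕ) (_ : 1 ≤ d) (σ : Fin d → Equiv.Perm V)
    (_ : ∀ (i : Fin d) (v : V) (n : ℕ), 0 < n → n < 64 * d → (σ i ^ n) v ≠ v),
    ∃ X : Fin d → Set V, (∀ i v, ∃ x ∈ X i, (σ i).SameCycle v x) ∧
      (∀ i j x y, x ∈ X i → y ∈ X j → (i ≠ j ∨ x ≠ y) →
        x ≠ y ∧ x ≠ σ j y ∧ σ i x ≠ y ∧ σ i x ≠ σ j y)

theorem cov_of_perms (hPick : Pick) {V : Type} [Finite V] {d : ℕ} (hd : 1 ≤ d)
    (σ : Fin d → Equiv.Perm V)
    (hlen : ∀ (i : Fin d) (v : V) (n : ℕ), 0 < n → n < 64 * d → (σ i ^ n) v ≠ v)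
    (G : SimpleGraph V) (hG : ∀ u v, G.Adj u v ↔ ∃ i, σ i u = v ∨ σ i v = u) :
    Cov G (d + 1) := by
  classical
  obtain ⟨X, hX, hconf⟩ := hPick V d hd σ hlen
  have hfix : ∀ i v, σ i v ≠ v := by
    intro i v
    have := hlen i v 1 one_pos (by omega)
    rwa [pow_one] at this
  let P : SimpleGraph V := SimpleGraph.fromRel (fun u v => ∃ i, σ i u = v ∧ u ∈ X i)
  let F : Fin d → SimpleGraph V := fun i => SimpleGraph.fromRel (fun u v => σ i u = v ∧ u ∉ X i)
  refine ⟨Fin.lastCases P F, ?_, ?_⟩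
  · intro i
    refine Fin.lastCases ?_ (fun i => ?_) i
    · beta_reduce
      rw [Fin.lastCases_last]
      refine matching_lf P ?_
      intro v u w hu hw
      simp only [P, fromRel_adj] at hu hw
      -- each adjacency gives a picked edge containing `v`
      have key : ∀ t, (v ≠ t ∧ ((∃ i, σ i v = t ∧ v ∈ X i) ∨ ∃ i, σ i t = v ∧ t ∈ X i)) →
          ∃ i x, x ∈ X i ∧ ((x = v ∧ σ i x = t) ∨ (σ i x = v ∧ x = t)) := by
        rintro t ⟨-, ⟨i, h, hv⟩ | ⟨i, h, ht⟩⟩
        · exact ⟨i, v, hv, Or.inl ⟨rfl, h⟩⟩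
        · exact ⟨i, t, ht, Or.inr ⟨h, rfl⟩⟩
      obtain ⟨i, x, hx, hxv⟩ := key u hu
      obtain ⟨j, y, hy, hyv⟩ := key w hw
      by_cases hij : i ≠ j ∨ x ≠ y
      · obtain ⟨c1, c2, c3, c4⟩ := hconf i j x y hx hy hij
        rcases hxv with ⟨h1, -⟩ | ⟨h1, -⟩ <;> rcases hyv with ⟨h2, -⟩ | ⟨h2, -⟩
        · exact absurd (h1.trans h2.symm) c1
        · exact absurd (h1.trans h2.symm) c2
        · exact absurd (h1.trans h2.symm) c3
        · exact absurd (h1.trans h2.symm) c4
      · push Not at hij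
        obtain ⟨rfl, rfl⟩ := hij
        rcases hxv with ⟨h1, h3⟩ | ⟨h1, h3⟩ <;> rcases hyv with ⟨h2, h4⟩ | ⟨h2, h4⟩
        · exact h3.symm.trans h4
        · exact absurd (h2.trans h1.symm) (hfix i x)
        · exact absurd (h1.trans h2.symm) (hfix i x)
        · exact h3.symm.trans h4
    · beta_reduce
      rw [Fin.lastCases_castSucc]
      exact forest (σ i) (X i) (hX i)
  · ext u v
    rw [iSup_adj, hG]
    constructor
    · rintro ⟨i, hi⟩
      revert hi
      refine Fin.lastCases ?_ (fun i => ?_) i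
      · rw [Fin.lastCases_last]
        simp only [P, fromRel_adj]
        rintro ⟨-, ⟨i, h, -⟩ | ⟨i, h, -⟩⟩
        · exact ⟨i, Or.inl h⟩
        · exact ⟨i, Or.inr h⟩
      · rw [Fin.lastCases_castSucc]
        simp only [F, fromRel_adj]
        rintro ⟨-, ⟨h, -⟩ | ⟨h, -⟩⟩
        · exact ⟨i, Or.inl h⟩
        · exact ⟨i, Or.inr h⟩
    · rintro ⟨i, h | h⟩
      · by_cases hu : u ∈ X i
        · refine ⟨Fin.last d, ?_⟩
          rw [Fin.lastCases_last]
          simp only [P, fromRel_adj]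
          exact ⟨fun he => hfix i u (by rw [h, he]), Or.inl ⟨i, h, hu⟩⟩
        · refine ⟨Fin.castSucc i, ?_⟩
          rw [Fin.lastCases_castSucc]
          simp only [F, fromRel_adj]
          exact ⟨fun he => hfix i u (by rw [h, he]), Or.inl ⟨h, hu⟩⟩
      · by_cases hv : v ∈ X i
        · refine ⟨Fin.last d, ?_⟩
          rw [Fin.lastCases_last]
          simp only [P, fromRel_adj]
          exact ⟨fun he => hfix i v (by rw [h, he]), Or.inr ⟨i, h, hv⟩⟩
        · refine ⟨Fin.castSucc i, ?_⟩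
          rw [Fin.lastCases_castSucc]
          simp only [F, fromRel_adj]
          exact ⟨fun he => hfix i v (by rw [h, he]), Or.inr ⟨h, hv⟩⟩

theorem la_of_perms (hPick : Pick) {V : Type} [Finite V] [Nonempty V] {d : ℕ} (hd : 1 ≤ d)
    (σ : Fin d → Equiv.Perm V)
    (hlen : ∀ (i : Fin d) (v : V) (n : ℕ), 0 < n → n < 64 * d → (σ i ^ n) v ≠ v)
    (G : SimpleGraph V) (hG : ∀ u v, G.Adj u v ↔ ∃ i, σ i u = v ∨ σ i v = u)
    (hreg : ∀ v, (G.neighborSet v).ncard = 2 * d) : la G = d + 1 := by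
  have h1 : la G ≤ d + 1 := la_le (cov_of_perms hPick hd σ hlen G hG)
  have h2 := lower (k := la G) (r := 2 * d) (by omega) (cov_la G) hreg
  omega

/-- Cayley graphs of finite groups with connection elements of large order. -/
theorem la_cayley (hPick : Pick) {Γ : Type} [Group Γ] [Finite Γ] (A : Finset Γ) (hne : A.Nonempty)
    (hsym : ∀ a ∈ A, a⁻¹ ∈ A) (hord : ∀ a ∈ A, 32 * A.card ≤ orderOf a)
    (G : SimpleGraph Γ) (hG : ∀ u v, G.Adj u v ↔ u⁻¹ * v ∈ A) :
    (∀ v, (G.neighborSet v).ncard = A.card) ∧ la G = (A.card + 2) / 2 := by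
  classical
  have hreg : ∀ v, (G.neighborSet v).ncard = A.card := by
    intro v
    have h1 : G.neighborSet v = (fun a => v * a) '' (A : Set Γ) := by
      ext w
      rw [mem_neighborSet, hG, Set.mem_image]
      constructor
      · intro h
        exact ⟨v⁻¹ * w, h, by group⟩
      · rintro ⟨a, ha, rfl⟩
        simpa using ha
    rw [h1, Set.ncard_image_of_injective _ (mul_right_injective v), Set.ncard_coe_finset]
  refine ⟨hreg, ?_⟩
  have hcard : 1 ≤ A.card := hne.card_pos
  have hinv : ∀ a ∈ A, a⁻¹ ≠ a := by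
    intro a ha h
    have h2 : a ^ 2 = 1 := by
      rw [pow_two]
      nth_rewrite 1 [← h]
      exact inv_mul_cancel a
    have h3 := orderOf_le_of_pow_eq_one two_pos h2
    have h4 := hord a ha
    omega
  have := Fintype.ofFinite Γ
  let e := Fintype.equivFin Γ
  let S : Finset Γ := A.filter (fun a => e a < e a⁻¹)
  have hA : A = S ∪ S.image (fun a => a⁻¹) := by
    ext a
    simp only [S, Finset.mem_union, Finset.mem_filter, Finset.mem_image]
    constructor
    · intro ha
      rcases lt_trichotomy (e a) (e a⁻¹) with h | h | h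
      · exact Or.inl ⟨ha, h⟩
      · exact absurd (e.injective h).symm (hinv a ha)
      · exact Or.inr ⟨a⁻¹, ⟨hsym a ha, by rwa [inv_inv]⟩, inv_inv a⟩
    · rintro (⟨ha, -⟩ | ⟨b, ⟨hb, -⟩, rfl⟩)
      · exact ha
      · exact hsym b hb
  have hdisj : Disjoint S (S.image (fun a => a⁻¹)) := by
    rw [Finset.disjoint_left]
    intro a ha hb
    simp only [S, Finset.mem_filter, Finset.mem_image] at ha hb
    obtain ⟨b, ⟨-, hb⟩, rfl⟩ := hb
    rw [inv_inv] at ha
    exact lt_asymm ha.2 hb
  have hcA : A.card = 2 * S.card := by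
    conv_lhs => rw [hA]
    rw [Finset.card_union_of_disjoint hdisj, Finset.card_image_of_injective _ inv_injective]
    ring
  have hS1 : 1 ≤ S.card := by omega
  let f : Fin S.card ≃ S := S.equivFin.symm
  have hmemS : ∀ a ∈ S, a ∈ A := fun a ha => (Finset.mem_filter.mp ha).1
  have hlast := la_of_perms hPick hS1 (fun i => Equiv.mulRight ((f i : S) : Γ)) (by
    intro i v n hn0 hn h
    have h1 : ((Equiv.mulRight ((f i : S) : Γ)) ^ n) v = v * ((f i : S) : Γ) ^ n := by
      rw [Equiv.pow_mulRight]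
      rfl
    rw [h1] at h
    have h2 : ((f i : S) : Γ) ^ n = 1 := by simpa using h
    have h3 := orderOf_le_of_pow_eq_one hn0 h2
    have h4 := hord _ (hmemS _ (f i).2)
    omega) G (by
    intro u v
    rw [hG]
    constructor
    · intro h
      rw [hA, Finset.mem_union, Finset.mem_image] at h
      rcases h with h | ⟨b, hb, hbe⟩
      · refine ⟨f.symm ⟨_, h⟩, Or.inl ?_⟩
        simp
      · refine ⟨f.symm ⟨b, hb⟩, Or.inr ?_⟩
        have : b = v⁻¹ * u := by
          rw [← inv_inv b, hbe]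
          group
        simp [this]
    · rintro ⟨i, h | h⟩
      · have : u⁻¹ * v = ((f i : S) : Γ) := by
          rw [← h]
          simp
        rw [this]
        exact hmemS _ (f i).2
      · have : u⁻¹ * v = (((f i : S) : Γ))⁻¹ := by
          rw [← h]
          simp
        rw [this]
        exact hsym _ (hmemS _ (f i).2)) (by
    intro v
    rw [hreg v, hcA])
  rw [hlast]
  omega

/-- Cayley graphs of finite groups whose order has only large prime factors. -/
theorem la_cayley_primes (hPick : Pick) {Γ : Type} [Group Γ] [Finite Γ] (A : Finset Γ)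
    (hne : A.Nonempty) (hsym : ∀ a ∈ A, a⁻¹ ∈ A) (h1 : (1 : Γ) ∉ A)
    (hprime : ∀ p : ℕ, p.Prime → p ∣ Nat.card Γ → 32 * A.card ≤ p)
    (G : SimpleGraph Γ) (hG : ∀ u v, G.Adj u v ↔ u⁻¹ * v ∈ A) :
    (∀ v, (G.neighborSet v).ncard = A.card) ∧ la G = (A.card + 2) / 2 := by
  refine la_cayley hPick A hne hsym ?_ G hG
  intro a ha
  have ha1 : orderOf a ≠ 1 := fun h => h1 (orderOf_eq_one_iff.mp h ▸ ha)
  have hp := Nat.minFac_prime ha1
  refine (hprime _ hp ((Nat.minFac_dvd _).trans (orderOf_dvd_natCard a))).trans ?_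
  exact Nat.minFac_le (orderOf_pos a)

end Pool.Agent.H250R3.LAC
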