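import Pool.Agent.H250R3.LAC.Main

/-!
# The odd case: a 2-factorization into long cycles and a perfect matching
-/

set_option autoImplicit false

namespace Pool.Agent.H250R3.LAC

open SimpleGraph H931R3.LA

/-- The selection statement with a bounded neighbourhood system. -/
def PickR : Prop :=
  ∀ (V : Type) [Finite V] (d k : ℕ) (_ : 1 ≤ d) (_ : 1 ≤ k) (R : V → Finset V)
    (_ : ∀ v, v ∈ R v) (_ : ∀ u v, u ∈ R v → v ∈ R u) (_ : ∀ v, (R v).card ≤ k)
    (σ : Fin d → Equiv.Perm V)
    (_ : ∀ (i : Fin d) (v : V) (n : ℕ), 0 < n → n < 64 * k * d → (σ i ^ n) v ≠ v),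
    ∃ X : Fin d → Set V, (∀ i v, ∃ x ∈ X i, (σ i).SameCycle v x) ∧
      (∀ i j x y, x ∈ X i → y ∈ X j → (i ≠ j ∨ x ≠ y) →
        x ∉ R y ∧ x ∉ R (σ j y) ∧ σ i x ∉ R y ∧ σ i x ∉ R (σ j y))

theorem pick_of_pickR (h : PickR) : Pick := by
  classical
  intro V _ d hd σ hlen
  obtain ⟨X, h1, h2⟩ := h V d 1 hd le_rfl (fun v => {v}) (by simp) (by simp [eq_comm]) (by simp) σ
    (by simpa using hlen)
  refine ⟨X, h1, fun i j x y hx hy hne => ?_⟩
  simpa using h2 i j x y hx hy hne

theorem cov_odd (hPick : PickR) {V : Type} [Finite V] {d : ℕ} (hd : 1 ≤ d)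
    (σ : Fin d → Equiv.Perm V) (τ : V → V) (hτ : ∀ v, τ (τ v) = v) (hτ1 : ∀ v, τ v ≠ v)
    (hlen : ∀ (i : Fin d) (v : V) (n : ℕ), 0 < n → n < 128 * d → (σ i ^ n) v ≠ v)
    (G : SimpleGraph V) (hG : ∀ u v, G.Adj u v ↔ τ u = v ∨ ∃ i, σ i u = v ∨ σ i v = u) :
    Cov G (d + 1) := by
  classical
  obtain ⟨X, hX, hconf⟩ := hPick V d 2 hd (by norm_num) (fun v => {v, τ v}) (by simp)
    (by
      intro u v h
      rw [Finset.mem_insert, Finset.mem_singleton] at h ⊢
      rcases h with h | h
      · exact Or.inl h.symm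
      · right
        rw [h, hτ])
    (by intro v; exact Finset.card_le_two) σ (by
      intro i v n h1 h2
      exact hlen i v n h1 (by omega))
  have hfix : ∀ i v, σ i v ≠ v := by
    intro i v
    have := hlen i v 1 one_pos (by omega)
    rwa [pow_one] at this
  have hconf' : ∀ i j x y, x ∈ X i → y ∈ X j → (i ≠ j ∨ x ≠ y) →
      ∀ u w, (u = x ∨ u = σ i x) → (w = y ∨ w = σ j y) → u ≠ w ∧ u ≠ τ w := by
    intro i j x y hx hy hne u w hu hw
    obtain ⟨c1, c2, c3, c4⟩ := hconf i j x y hx hy hne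
    simp only [Finset.mem_insert, Finset.mem_singleton, not_or] at c1 c2 c3 c4
    rcases hu with rfl | rfl <;> rcases hw with rfl | rfl
    · exact c1
    · exact c2
    · exact c3
    · exact c4
  let P : SimpleGraph V :=
    SimpleGraph.fromRel (fun u v => τ u = v ∨ ∃ i, σ i u = v ∧ u ∈ X i)
  let F : Fin d → SimpleGraph V := fun i => SimpleGraph.fromRel (fun u v => σ i u = v ∧ u ∉ X i)
  -- starts and ends of picked edges
  let St : V → Prop := fun v => ∃ i, v ∈ X i
  let En : V → Prop := fun v => ∃ i x, x ∈ X i ∧ σ i x = v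
  have hSE : ∀ v, St v → ¬ En v := by
    rintro v ⟨i, hv⟩ ⟨j, x, hx, hxv⟩
    by_cases hne : i ≠ j ∨ v ≠ x
    · exact (hconf' i j v x hv hx hne v v (Or.inl rfl) (Or.inr hxv.symm)).1 rfl
    · push Not at hne
      obtain ⟨rfl, rfl⟩ := hne
      exact hfix i v hxv
  -- picked edges at a vertex
  have hadj : ∀ v t, P.Adj v t → t = τ v ∨ ∃ i x, x ∈ X i ∧
      ((x = v ∧ σ i x = t) ∨ (σ i x = v ∧ x = t)) := by
    intro v t h
    simp only [P, fromRel_adj] at h
    rcases h with ⟨-, (h | ⟨i, h, hv⟩) | (h | ⟨i, h, ht⟩)⟩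
    · exact Or.inl h.symm
    · exact Or.inr ⟨i, v, hv, Or.inl ⟨rfl, h⟩⟩
    · left
      rw [← h, hτ]
    · exact Or.inr ⟨i, t, ht, Or.inr ⟨h, rfl⟩⟩
  have huniq : ∀ v u w, (∃ i x, x ∈ X i ∧ ((x = v ∧ σ i x = u) ∨ (σ i x = v ∧ x = u))) →
      (∃ i x, x ∈ X i ∧ ((x = v ∧ σ i x = w) ∨ (σ i x = v ∧ x = w))) → u = w := by
    rintro v u w ⟨i, x, hx, hxv⟩ ⟨j, y, hy, hyv⟩
    by_cases hij : i ≠ j ∨ x ≠ y
    · exfalso
      have hv1 : v = x ∨ v = σ i x := by
        rcases hxv with ⟨h, -⟩ | ⟨h, -⟩
        · exact Or.inl h.symm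
        · exact Or.inr h.symm
      have hv2 : v = y ∨ v = σ j y := by
        rcases hyv with ⟨h, -⟩ | ⟨h, -⟩
        · exact Or.inl h.symm
        · exact Or.inr h.symm
      exact (hconf' i j x y hx hy hij v v hv1 hv2).1 rfl
    · push Not at hij
      obtain ⟨rfl, rfl⟩ := hij
      rcases hxv with ⟨h1, h3⟩ | ⟨h1, h3⟩ <;> rcases hyv with ⟨h2, h4⟩ | ⟨h2, h4⟩
      · exact h3.symm.trans h4
      · exact absurd (h2.trans h1.symm) (hfix i x)
      · exact absurd (h1.trans h2.symm) (hfix i x)
      · exact h3.symm.trans h4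
  have := Fintype.ofFinite V
  let e := Fintype.equivFin V
  let n := Fintype.card V
  let L : V → ℕ := fun v => if St v then 1 else if En v then 2 else if En (τ v) then 3 else 0
  let D : V → ℕ := fun v => L v * n + e v
  have hDinj : ∀ u v, D u = D v → u = v := by
    intro u v h
    have h1 := (e u).2
    have h2 := (e v).2
    have hm : ∀ z, D z % n = e z := by
      intro z
      simp only [D]
      rw [Nat.add_comm, Nat.add_mul_mod_self_right, Nat.mod_eq_of_lt (e z).2]
    have h3 : (e u : ℕ) = e v := by rw [← hm u, ← hm v, h]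
    exact e.injective (Fin.ext h3)
  have hDlt : ∀ u v, L u < L v → D u < D v := by
    intro u v h
    have h1 := (e u).2
    have h2 : (L u + 1) * n ≤ L v * n := Nat.mul_le_mul_right _ h
    simp only [D]
    have h3 : (L u + 1) * n = L u * n + n := by ring
    have h4 : (e u : ℕ) < n := h1
    omega
  have key : ∀ v a b, a = τ v → (∃ i x, x ∈ X i ∧ ((x = v ∧ σ i x = b) ∨ (σ i x = v ∧ x = b))) →
      D a < D v → D b < D v → a = b := by
    rintro v a b rfl ⟨i, x, hx, ⟨rfl, h⟩ | ⟨h, rfl⟩⟩ ha hb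
    · exfalso
      have hs : St x := ⟨i, hx⟩
      have hen : En b := ⟨i, x, hx, h⟩
      have hns : ¬ St b := fun hst => hSE b hst hen
      have h1 : L x = 1 := by simp only [L, if_pos hs]
      have h2 : L b = 2 := by simp only [L, if_neg hns, if_pos hen]
      have := hDlt x b (by omega)
      omega
    · have hen : En v := ⟨i, x, hx, h⟩
      have hns : ¬ St v := fun hst => hSE v hst hen
      have h1 : L v = 2 := by simp only [L, if_neg hns, if_pos hen]
      by_contra hne
      have htouch : ∀ j y, y ∈ X j → (τ v = y ∨ τ v = σ j y) → False := by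
        intro j y hy hyv
        by_cases hij : i ≠ j ∨ x ≠ y
        · exact (hconf' i j x y hx hy hij v (τ v) (Or.inr h.symm) hyv).2 (hτ v).symm
        · push Not at hij
          obtain ⟨rfl, rfl⟩ := hij
          rcases hyv with hyv | hyv
          · exact hne hyv
          · exact hτ1 v (hyv.trans h)
      have hns' : ¬ St (τ v) := by
        rintro ⟨j, hj⟩
        exact htouch j _ hj (Or.inl rfl)
      have hne' : ¬ En (τ v) := by
        rintro ⟨j, y, hy, hyv⟩
        exact htouch j y hy (Or.inr hyv.symm)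
      have h2 : L (τ v) = 3 := by
        have hen' : En (τ (τ v)) := by rw [hτ]; exact hen
        simp only [L, if_neg hns', if_neg hne', if_pos hen']
      have := hDlt v (τ v) (by omega)
      omega
  have hP : IsLF P := by
    constructor
    · refine acyclic_of_pos P D (fun u v h he => h.ne (hDinj u v he)) ?_
      intro v u w hu hw hlu hlw
      rcases hadj v u hu with hu1 | hu1 <;> rcases hadj v w hw with hw1 | hw1
      · rw [hu1, hw1]
      · exact key v u w hu1 hw1 hlu hlw
      · exact (key v w u hw1 hu1 hlw hlu).symm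
      · exact huniq v u w hu1 hw1
    · intro v
      by_cases hex : ∃ b, ∃ i x, x ∈ X i ∧ ((x = v ∧ σ i x = b) ∨ (σ i x = v ∧ x = b))
      · obtain ⟨b, hb⟩ := hex
        have hsub : P.neighborSet v ⊆ {τ v, b} := by
          intro w hw
          rcases hadj v w hw with h | h
          · exact Or.inl h
          · exact Or.inr (huniq v w b h hb)
        refine (Set.ncard_le_ncard hsub (Set.toFinite _)).trans ?_
        have := Set.ncard_insert_le (τ v) {b}
        rwa [Set.ncard_singleton] at this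
      · have hsub : P.neighborSet v ⊆ {τ v} := by
          intro w hw
          rcases hadj v w hw with h | h
          · exact h
          · exact absurd ⟨w, h⟩ hex
        refine (Set.ncard_le_ncard hsub (Set.toFinite _)).trans ?_
        rw [Set.ncard_singleton]
        norm_num
  refine ⟨Fin.lastCases P F, ?_, ?_⟩
  · intro i
    refine Fin.lastCases ?_ (fun i => ?_) i
    · beta_reduce
      rw [Fin.lastCases_last]
      exact hP
    · beta_reduce
      rw [Fin.lastCases_castSucc]
      exact forest (σ i) (X i) (hX i)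
  · ext u v
    rw [iSup_adj, hG]
    constructor
    · rintro ⟨i, hi⟩
      revert hi
      refine Fin.lastCases ?_ (fun i => ?_) i
      · rw [Fin.lastCases_last]
        simp only [P, fromRel_adj]
        rintro ⟨-, (h | ⟨i, h, -⟩) | (h | ⟨i, h, -⟩)⟩
        · exact Or.inl h
        · exact Or.inr ⟨i, Or.inl h⟩
        · left
          rw [← h, hτ]
        · exact Or.inr ⟨i, Or.inr h⟩
      · rw [Fin.lastCases_castSucc]
        simp only [F, fromRel_adj]
        rintro ⟨-, ⟨h, -⟩ | ⟨h, -⟩⟩
        · exact Or.inr ⟨i, Or.inl h⟩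
        · exact Or.inr ⟨i, Or.inr h⟩
    · rintro (h | ⟨i, h | h⟩)
      · refine ⟨Fin.last d, ?_⟩
        rw [Fin.lastCases_last]
        simp only [P, fromRel_adj]
        exact ⟨fun he => hτ1 u (by rw [h, he]), Or.inl (Or.inl h)⟩
      · by_cases hu : u ∈ X i
        · refine ⟨Fin.last d, ?_⟩
          rw [Fin.lastCases_last]
          simp only [P, fromRel_adj]
          exact ⟨fun he => hfix i u (by rw [h, he]), Or.inl (Or.inr ⟨i, h, hu⟩)⟩
        · refine ⟨Fin.castSucc i, ?_⟩
          rw [Fin.lastCases_castSucc]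
          simp only [F, fromRel_adj]
          exact ⟨fun he => hfix i u (by rw [h, he]), Or.inl ⟨h, hu⟩⟩
      · by_cases hv : v ∈ X i
        · refine ⟨Fin.last d, ?_⟩
          rw [Fin.lastCases_last]
          simp only [P, fromRel_adj]
          exact ⟨fun he => hfix i v (by rw [h, he]), Or.inr (Or.inr ⟨i, h, hv⟩)⟩
        · refine ⟨Fin.castSucc i, ?_⟩
          rw [Fin.lastCases_castSucc]
          simp only [F, fromRel_adj]
          exact ⟨fun he => hfix i v (by rw [h, he]), Or.inr ⟨h, hv⟩⟩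

end Pool.Agent.H250R3.LAC
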