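import Pool.Agent.H250R3.LAC.Odd
import Pool.Agent.Helper635.LLL

/-!
# The selection lemma
-/

set_option autoImplicit false

namespace Pool.Agent.H250R3.LAC

open Pool.Agent.Helper635.LLL

open Classical in
theorem cnt_coord {T C : Type} [Fintype T] [Fintype C] (t : T) (a : C) :
    cnt (fun ω : T → C => ω t = a) * Fintype.card C ≤ Fintype.card (T → C) := by
  rw [cnt, ← Finset.card_univ (α := C), ← Finset.card_product, ← Finset.card_univ (α := T → C)]
  refine Finset.card_le_card_of_injOn (fun w => Function.update w.1 t w.2) (by simp) ?_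
  rintro ⟨ω, c⟩ h1 ⟨ω', c'⟩ h2 h
  have hω : ω t = a := by
    have := (Finset.mem_product.mp (Finset.mem_coe.mp h1)).1
    exact mem_ev.mp this
  have hω' : ω' t = a := by
    have := (Finset.mem_product.mp (Finset.mem_coe.mp h2)).1
    exact mem_ev.mp this
  simp only at h
  have hc : c = c' := by
    have := congrFun h t
    simpa using this
  have hωω : ω = ω' := by
    funext s
    by_cases hs : s = t
    · rw [hs, hω, hω']
    · have := congrFun h s
      simpa [Function.update_of_ne hs] using this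
  rw [hc, hωω]

open Classical in
theorem cnt_pair {T C : Type} [Fintype T] [Fintype C] [Nonempty C] (t t' : T) (ht : t ≠ t')
    (a b : C) :
    cnt (fun ω : T → C => ω t = a ∧ ω t' = b) * (Fintype.card C * Fintype.card C) ≤
      Fintype.card (T → C) := by
  have h := indep (fun ω : T → C => ω t = a) (fun ω => ω t' = b) {t}
    (by
      intro ω ω' h1 h2
      rw [← h1 t (Finset.mem_singleton_self t)]
      exact h2)
    (by
      intro ω ω' h1 h2
      rw [← h1 t' (by
        rw [Finset.mem_singleton]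
        exact ht.symm)]
      exact h2)
  have h1 := cnt_coord t a
  have h2 := cnt_coord t' b
  have h3 : 0 < Fintype.card (T → C) := Fintype.card_pos
  have h4 := Nat.mul_le_mul h1 h2
  refine Nat.le_of_mul_le_mul_right ?_ h3
  calc cnt (fun ω : T → C => ω t = a ∧ ω t' = b) * (Fintype.card C * Fintype.card C) *
        Fintype.card (T → C)
      = cnt (fun ω : T → C => ω t = a ∧ ω t' = b) * Fintype.card (T → C) *
        (Fintype.card C * Fintype.card C) := by ring
    _ = cnt (fun ω : T → C => ω t = a) * cnt (fun ω : T → C => ω t' = b) *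
        (Fintype.card C * Fintype.card C) := by rw [h]
    _ = cnt (fun ω : T → C => ω t = a) * Fintype.card C *
        (cnt (fun ω : T → C => ω t' = b) * Fintype.card C) := by ring
    _ ≤ _ := h4

section
variable {V : Type} [Fintype V] {d m : ℕ} (σ : Fin d → Equiv.Perm V) (R : V → Finset V)

/-- A representative of the cycle. -/
noncomputable def rep (i : Fin d) (v : V) : V :=
  Quotient.out (Quotient.mk (Equiv.Perm.SameCycle.setoid (σ i)) v)

omit [Fintype V] in
lemma rep_same (i : Fin d) (v : V) : (σ i).SameCycle (rep σ i v) v :=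
  Quotient.exact (Quotient.out_eq (Quotient.mk (Equiv.Perm.SameCycle.setoid (σ i)) v))

omit [Fintype V] in
lemma rep_eq (i : Fin d) {v w : V} (h : (σ i).SameCycle v w) : rep σ i v = rep σ i w := by
  unfold rep
  rw [Quotient.sound (s := Equiv.Perm.SameCycle.setoid (σ i)) h]

omit [Fintype V] in
lemma rep_rep (i : Fin d) (v : V) : rep σ i (rep σ i v) = rep σ i v :=
  rep_eq σ i (rep_same σ i v)

/-- The starting point of the picked edge. -/
def pt (e : (Fin d × V) × Fin m) : V := (σ e.1.1 ^ (e.2 : ℕ)) e.1.2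

/-- Closeness of two edges. -/
def near (e f : (Fin d × V) × Fin m) : Prop :=
  pt σ e ∈ R (pt σ f) ∨ pt σ e ∈ R (σ f.1.1 (pt σ f)) ∨ σ e.1.1 (pt σ e) ∈ R (pt σ f) ∨
    σ e.1.1 (pt σ e) ∈ R (σ f.1.1 (pt σ f))

/-- Conflicts. -/
def conf (e f : (Fin d × V) × Fin m) : Prop :=
  e.1 ≠ f.1 ∧ rep σ e.1.1 e.1.2 = e.1.2 ∧ rep σ f.1.1 f.1.2 = f.1.2 ∧ near σ R e f

omit [Fintype V] in
lemma conf_symm (hR : ∀ u v, u ∈ R v → v ∈ R u) (e f : (Fin d × V) × Fin m)
    (h : conf σ R e f) : conf σ R f e := by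
  obtain ⟨h1, h2, h3, h4⟩ := h
  refine ⟨h1.symm, h3, h2, ?_⟩
  rcases h4 with h | h | h | h
  · exact Or.inl (hR _ _ h)
  · exact Or.inr (Or.inr (Or.inl (hR _ _ h)))
  · exact Or.inr (Or.inl (hR _ _ h))
  · exact Or.inr (Or.inr (Or.inr (hR _ _ h)))

omit [Fintype V] in
lemma pt_inj (hlen : ∀ (i : Fin d) (v : V) (n : ℕ), 0 < n → n < m → (σ i ^ n) v ≠ v)
    (e f : (Fin d × V) × Fin m) (he : rep σ e.1.1 e.1.2 = e.1.2)
    (hf : rep σ f.1.1 f.1.2 = f.1.2) (h1 : e.1.1 = f.1.1) (h2 : pt σ e = pt σ f) : e = f := by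
  obtain ⟨⟨i, r⟩, a⟩ := e
  obtain ⟨⟨j, s⟩, b⟩ := f
  simp only at h1 he hf
  subst h1
  simp only [pt] at h2
  have hs1 : (σ i).SameCycle r ((σ i ^ (a : ℕ)) r) := ⟨(a : ℤ), by simp⟩
  have hs2 : (σ i).SameCycle s ((σ i ^ (b : ℕ)) s) := ⟨(b : ℤ), by simp⟩
  have hrs : r = s := by
    rw [← he, ← hf]
    refine rep_eq σ i (hs1.trans ?_)
    rw [h2]
    exact hs2.symm
  subst hrs
  have hab : (a : ℕ) = b := by
    by_contra hne
    rcases lt_or_gt_of_ne hne with hlt | hlt
    · refine hlen i r ((b : ℕ) - a) (by omega) (by have := b.2; omega) ?_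
      have : (σ i ^ (b : ℕ)) r = (σ i ^ (a : ℕ)) ((σ i ^ ((b : ℕ) - a)) r) := by
        rw [← Equiv.Perm.mul_apply, ← pow_add]
        congr 2
        omega
      rw [this] at h2
      exact ((σ i ^ (a : ℕ)).injective h2).symm
    · refine hlen i r ((a : ℕ) - b) (by omega) (by have := a.2; omega) ?_
      have : (σ i ^ (a : ℕ)) r = (σ i ^ (b : ℕ)) ((σ i ^ ((a : ℕ) - b)) r) := by
        rw [← Equiv.Perm.mul_apply, ← pow_add]
        congr 2
        omega
      rw [this] at h2
      exact (σ i ^ (b : ℕ)).injective h2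
  have : a = b := Fin.ext hab
  rw [this]

open Classical in
lemma conf_card (hR : ∀ u v, u ∈ R v → v ∈ R u) {k : ℕ} (hk : ∀ v, (R v).card ≤ k)
    (hlen : ∀ (i : Fin d) (v : V) (n : ℕ), 0 < n → n < m → (σ i ^ n) v ≠ v)
    (e : (Fin d × V) × Fin m) :
    (Finset.univ.filter (fun f => conf σ R e f)).card ≤ 4 * k * d := by
  let Q : Finset V := R (pt σ e) ∪ R (σ e.1.1 (pt σ e))
  have hQ : Q.card ≤ 2 * k := by
    refine (Finset.card_union_le _ _).trans ?_
    have := hk (pt σ e)
    have := hk (σ e.1.1 (pt σ e))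
    omega
  let W : Finset (Fin d × V) := Finset.univ.biUnion
    (fun j : Fin d => (Q ∪ Q.image (σ j).symm).image (fun y => (j, y)))
  have hW : W.card ≤ 4 * k * d := by
    refine Finset.card_biUnion_le.trans ?_
    refine (Finset.sum_le_card_nsmul _ _ (4 * k) ?_).trans ?_
    · intro j _
      refine Finset.card_image_le.trans ((Finset.card_union_le _ _).trans ?_)
      have : (Q.image (σ j).symm).card ≤ Q.card := Finset.card_image_le
      omega
    · rw [Finset.card_univ, Fintype.card_fin, smul_eq_mul]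
      ring_nf
      exact le_rfl
  refine (Finset.card_le_card_of_injOn (fun f => (f.1.1, pt σ f)) ?_ ?_).trans hW
  · intro f hf
    rw [Finset.mem_coe, Finset.mem_filter] at hf
    obtain ⟨-, -, -, -, hn⟩ := hf
    rw [Finset.mem_coe, Finset.mem_biUnion]
    refine ⟨f.1.1, Finset.mem_univ _, Finset.mem_image.mpr ⟨pt σ f, ?_, rfl⟩⟩
    rw [Finset.mem_union, Finset.mem_image]
    rcases hn with h | h | h | h
    · exact Or.inl (Finset.mem_union_left _ (hR _ _ h))
    · exact Or.inr ⟨_, Finset.mem_union_left _ (hR _ _ h), Equiv.symm_apply_apply _ _⟩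
    · exact Or.inl (Finset.mem_union_right _ (hR _ _ h))
    · exact Or.inr ⟨_, Finset.mem_union_right _ (hR _ _ h), Equiv.symm_apply_apply _ _⟩
  · intro f hf g hg h
    rw [Finset.mem_coe, Finset.mem_filter] at hf hg
    rw [Prod.mk.injEq] at h
    exact pt_inj σ hlen f g hf.2.2.2.1 hg.2.2.2.1 h.1 h.2

open Classical in
lemma first_card (hR : ∀ u v, u ∈ R v → v ∈ R u) {k : ℕ} (hk : ∀ v, (R v).card ≤ k)
    (hlen : ∀ (i : Fin d) (v : V) (n : ℕ), 0 < n → n < m → (σ i ^ n) v ≠ v) (t : Fin d × V) :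
    (Finset.univ.filter (fun q : ((Fin d × V) × Fin m) × ((Fin d × V) × Fin m) =>
      conf σ R q.1 q.2 ∧ q.1.1 = t)).card ≤ m * (4 * k * d) := by
  have hsub : (Finset.univ.filter (fun q : ((Fin d × V) × Fin m) × ((Fin d × V) × Fin m) =>
      conf σ R q.1 q.2 ∧ q.1.1 = t)) ⊆ Finset.univ.biUnion (fun a : Fin m =>
        (Finset.univ.filter (fun f => conf σ R (t, a) f)).image (fun f => ((t, a), f))) := by
    rintro ⟨⟨t', a⟩, f⟩ hq
    rw [Finset.mem_filter] at hq
    obtain ⟨-, hc, ht⟩ := hq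
    simp only at ht
    subst ht
    rw [Finset.mem_biUnion]
    exact ⟨a, Finset.mem_univ _, Finset.mem_image.mpr ⟨f, by simpa using hc, rfl⟩⟩
  refine (Finset.card_le_card hsub).trans (Finset.card_biUnion_le.trans ?_)
  refine (Finset.sum_le_card_nsmul _ _ (4 * k * d) ?_).trans ?_
  · intro a _
    exact Finset.card_image_le.trans (conf_card σ R hR hk hlen (t, a))
  · rw [Finset.card_univ, Fintype.card_fin, smul_eq_mul]

open Classical in
lemma second_card (hR : ∀ u v, u ∈ R v → v ∈ R u) {k : ℕ} (hk : ∀ v, (R v).card ≤ k)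
    (hlen : ∀ (i : Fin d) (v : V) (n : ℕ), 0 < n → n < m → (σ i ^ n) v ≠ v) (t : Fin d × V) :
    (Finset.univ.filter (fun q : ((Fin d × V) × Fin m) × ((Fin d × V) × Fin m) =>
      conf σ R q.1 q.2 ∧ q.2.1 = t)).card ≤ m * (4 * k * d) := by
  refine (Finset.card_le_card_of_injOn Prod.swap ?_ Prod.swap_injective.injOn).trans
    (first_card (m := m) σ R hR hk hlen t)
  intro q hq
  rw [Finset.mem_coe, Finset.mem_filter] at hq ⊢
  exact ⟨Finset.mem_univ _, conf_symm σ R hR _ _ hq.2.1, hq.2.2⟩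

end

theorem pickR : PickR := by
  classical
  intro V _ d k hd hk R hRefl hR hRk σ hlen
  have := Fintype.ofFinite V
  set m := 64 * k * d with hm
  have hmpos : 0 < m := by positivity
  have : Nonempty (Fin m) := ⟨⟨0, hmpos⟩⟩
  let I : Finset (((Fin d × V) × Fin m) × ((Fin d × V) × Fin m)) :=
    Finset.univ.filter (fun q => conf σ R q.1 q.2)
  let B : (((Fin d × V) × Fin m) × ((Fin d × V) × Fin m)) → (Fin d × V → Fin m) → Prop :=
    fun q ω => ω q.1.1 = q.1.2 ∧ ω q.2.1 = q.2.2
  let S : (((Fin d × V) × Fin m) × ((Fin d × V) × Fin m)) → Finset (Fin d × V) :=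
    fun q => {q.1.1, q.2.1}
  obtain ⟨ω, hω⟩ := lll I B S
    (by
      intro q _ ω ω' h hB
      refine ⟨?_, ?_⟩
      · rw [← h q.1.1 (by simp [S])]
        exact hB.1
      · rw [← h q.2.1 (by simp [S])]
        exact hB.2)
    (1 / ((m : ℝ) * m)) (16 * m * k * d) (by positivity)
    (by
      intro q hq
      have hne : q.1.1 ≠ q.2.1 := (Finset.mem_filter.mp hq).2.1
      have h := cnt_pair (C := Fin m) q.1.1 q.2.1 hne q.1.2 q.2.2
      rw [Fintype.card_fin] at h
      have h' := (Nat.cast_le (α := ℝ)).mpr h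
      push_cast at h'
      have hm0 : (0 : ℝ) < (m : ℝ) * m := by positivity
      rw [one_div, inv_mul_eq_div, le_div_iff₀ hm0]
      exact h')
    (by
      intro q _
      have hsub : I.filter (fun j => ¬ Disjoint (S q) (S j)) ⊆
          ((Finset.univ.filter (fun j => conf σ R j.1 j.2 ∧ j.1.1 = q.1.1)) ∪
            (Finset.univ.filter (fun j => conf σ R j.1 j.2 ∧ j.1.1 = q.2.1))) ∪
          ((Finset.univ.filter (fun j => conf σ R j.1 j.2 ∧ j.2.1 = q.1.1)) ∪
            (Finset.univ.filter (fun j => conf σ R j.1 j.2 ∧ j.2.1 = q.2.1))) := by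
        intro j hj
        rw [Finset.mem_filter] at hj
        obtain ⟨hj1, hj2⟩ := hj
        have hc : conf σ R j.1 j.2 := (Finset.mem_filter.mp hj1).2
        rw [Finset.not_disjoint_iff] at hj2
        obtain ⟨t, ht1, ht2⟩ := hj2
        simp only [S, Finset.mem_insert, Finset.mem_singleton] at ht1 ht2
        simp only [Finset.mem_union, Finset.mem_filter, Finset.mem_univ, true_and]
        rcases ht1 with h1 | h1 <;> rcases ht2 with h2 | h2
        · exact Or.inl (Or.inl ⟨hc, h2.symm.trans h1⟩)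
        · exact Or.inr (Or.inl ⟨hc, h2.symm.trans h1⟩)
        · exact Or.inl (Or.inr ⟨hc, h2.symm.trans h1⟩)
        · exact Or.inr (Or.inr ⟨hc, h2.symm.trans h1⟩)
      have hgoal : (I.filter (fun j => ¬ Disjoint (S q) (S j))).card ≤ 16 * m * k * d := by
        refine (Finset.card_le_card hsub).trans ?_
        have h1 := first_card (m := m) σ R hR hRk hlen q.1.1
        have h2 := first_card (m := m) σ R hR hRk hlen q.2.1
        have h3 := second_card (m := m) σ R hR hRk hlen q.1.1
        have h4 := second_card (m := m) σ R hR hRk hlen q.2.1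
        refine (Finset.card_union_le _ _).trans ?_
        refine (Nat.add_le_add (Finset.card_union_le _ _) (Finset.card_union_le _ _)).trans ?_
        have e : 16 * m * k * d = 4 * (m * (4 * k * d)) := by ring
        rw [e]
        omega
      convert hgoal)
    (by
      have hm0 : (m : ℝ) = 64 * k * d := by
        rw [hm]
        push_cast
        ring
      have hkd : (0 : ℝ) < 64 * k * d := by
        rw [← hm0]
        positivity
      push_cast
      rw [hm0]
      rw [div_eq_mul_inv, one_mul]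
      have : 4 * ((64 * (k : ℝ) * d) * (64 * k * d))⁻¹ * (16 * (64 * k * d) * k * d) = 1 := by
        field_simp
        ring
      exact this.le)
    (by
      have : 1 ≤ m := hmpos
      calc 1 = 1 * 1 * 1 * 1 := by norm_num
        _ ≤ 16 * m * k * d := by gcongr; norm_num)
    (by
      have hpos : 0 < Fintype.card (Fin d × V → Fin m) := Fintype.card_pos
      convert hpos)
  refine ⟨fun i => {x | ∃ v, rep σ i v = v ∧ x = pt σ ((i, v), ω (i, v))}, ?_, ?_⟩
  · intro i v
    refine ⟨_, ⟨rep σ i v, rep_rep σ i v, rfl⟩, ?_⟩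
    refine (rep_same σ i v).symm.trans ?_
    exact ⟨((ω (i, rep σ i v) : ℕ) : ℤ), by simp [pt]⟩
  · rintro i j x y ⟨r, hr, hx⟩ ⟨s, hs, hy⟩ hne
    have ht : ((i, r) : Fin d × V) ≠ (j, s) := by
      intro h
      rw [Prod.mk.injEq] at h
      obtain ⟨rfl, rfl⟩ := h
      rcases hne with hne | hne
      · exact hne rfl
      · exact hne (hx.trans hy.symm)
    have hno : ¬ near σ R ((i, r), ω (i, r)) ((j, s), ω (j, s)) := by
      intro hn
      refine hω (((i, r), ω (i, r)), ((j, s), ω (j, s))) ?_ ⟨rfl, rfl⟩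
      exact Finset.mem_filter.mpr ⟨Finset.mem_univ _, ht, hr, hs, hn⟩
    simp only [near, not_or] at hno
    rw [hx, hy]
    exact hno

end Pool.Agent.H250R3.LAC
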