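import Pool.Agent.H250R3.LAC.PickR

/-!
# Linear arboricity: final statements
-/

set_option autoImplicit false

namespace Pool.Agent.H250R3.LAC

open SimpleGraph H931R3.LA

theorem la_of_perms_odd {V : Type} [Finite V] [Nonempty V] {d : ℕ} (hd : 1 ≤ d)
    (σ : Fin d → Equiv.Perm V) (τ : V → V) (hτ : ∀ v, τ (τ v) = v) (hτ1 : ∀ v, τ v ≠ v)
    (hlen : ∀ (i : Fin d) (v : V) (n : ℕ), 0 < n → n < 128 * d → (σ i ^ n) v ≠ v)
    (G : SimpleGraph V) (hG : ∀ u v, G.Adj u v ↔ τ u = v ∨ ∃ i, σ i u = v ∨ σ i v = u)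
    (hreg : ∀ v, (G.neighborSet v).ncard = 2 * d + 1) : la G = d + 1 := by
  have h1 : la G ≤ d + 1 := la_le (cov_odd pickR hd σ τ hτ hτ1 hlen G hG)
  have h2 := lower (k := la G) (r := 2 * d + 1) (by omega) (cov_la G) hreg
  omega

theorem cayley_reg {Γ : Type} [Group Γ] (A : Finset Γ)
    (G : SimpleGraph Γ) (hG : ∀ u v, G.Adj u v ↔ u⁻¹ * v ∈ A) :
    ∀ v, (G.neighborSet v).ncard = A.card := by
  intro v
  have h1 : G.neighborSet v = (fun a => v * a) '' (A : Set Γ) := by
    ext w
    rw [mem_neighborSet, hG, Set.mem_image]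
    constructor
    · intro h
      exact ⟨v⁻¹ * w, h, by group⟩
    · rintro ⟨a, ha, rfl⟩
      simpa using ha
  rw [h1, Set.ncard_image_of_injective _ (mul_right_injective v), Set.ncard_coe_finset]

/-- Cayley graphs with exactly one involution in the connection set. -/
theorem la_cayley_odd {Γ : Type} [Group Γ] [Finite Γ] (A : Finset Γ) (t : Γ) (ht : t ∈ A)
    (ht2 : orderOf t = 2) (hA2 : 2 ≤ A.card)
    (hsym : ∀ a ∈ A, a⁻¹ ∈ A) (hord : ∀ a ∈ A, a ≠ t → 64 * (A.card - 1) ≤ orderOf a)
    (G : SimpleGraph Γ) (hG : ∀ u v, G.Adj u v ↔ u⁻¹ * v ∈ A) :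
    (∀ v, (G.neighborSet v).ncard = A.card) ∧ la G = (A.card + 2) / 2 := by
  classical
  have hreg := cayley_reg A G hG
  refine ⟨hreg, ?_⟩
  have htt : t * t = 1 := by
    have := pow_orderOf_eq_one t
    rwa [ht2, pow_two] at this
  have htinv : t⁻¹ = t := inv_eq_of_mul_eq_one_left htt
  have ht1 : t ≠ 1 := by
    rintro rfl
    rw [orderOf_one] at ht2
    omega
  have hinv : ∀ a ∈ A, a ≠ t → a⁻¹ ≠ a := by
    intro a ha hat h
    have h2 : a ^ 2 = 1 := by
      rw [pow_two]
      nth_rewrite 1 [← h]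
      exact inv_mul_cancel a
    have h3 := orderOf_le_of_pow_eq_one two_pos h2
    have h4 := hord a ha hat
    omega
  have := Fintype.ofFinite Γ
  let e := Fintype.equivFin Γ
  let S : Finset Γ := A.filter (fun a => e a < e a⁻¹)
  have htS : t ∉ S := by
    intro h
    have := (Finset.mem_filter.mp h).2
    rw [htinv] at this
    exact lt_irrefl _ this
  have hA : A.erase t = S ∪ S.image (fun a => a⁻¹) := by
    ext a
    simp only [Finset.mem_erase, Finset.mem_union, Finset.mem_image]
    constructor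
    · rintro ⟨hat, ha⟩
      rcases lt_trichotomy (e a) (e a⁻¹) with h | h | h
      · exact Or.inl (Finset.mem_filter.mpr ⟨ha, h⟩)
      · exact absurd (e.injective h).symm (hinv a ha hat)
      · exact Or.inr ⟨a⁻¹, Finset.mem_filter.mpr ⟨hsym a ha, by rwa [inv_inv]⟩, inv_inv a⟩
    · rintro (ha | ⟨b, hb, rfl⟩)
      · exact ⟨fun h => htS (h ▸ ha), (Finset.mem_filter.mp ha).1⟩
      · refine ⟨fun h => htS ?_, hsym b (Finset.mem_filter.mp hb).1⟩
        have : b = t := by rw [← inv_inv b, h, htinv]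
        exact this ▸ hb
  have hdisj : Disjoint S (S.image (fun a => a⁻¹)) := by
    rw [Finset.disjoint_left]
    intro a ha hb
    simp only [S, Finset.mem_filter, Finset.mem_image] at ha hb
    obtain ⟨b, ⟨-, hb⟩, rfl⟩ := hb
    rw [inv_inv] at ha
    exact lt_asymm ha.2 hb
  have hcA : A.card = 2 * S.card + 1 := by
    have h1 := Finset.card_erase_add_one ht
    rw [hA, Finset.card_union_of_disjoint hdisj,
      Finset.card_image_of_injective _ inv_injective] at h1
    omega
  have hS1 : 1 ≤ S.card := by omega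
  let f : Fin S.card ≃ S := S.equivFin.symm
  have hmemS : ∀ a ∈ S, a ∈ A := fun a ha => (Finset.mem_filter.mp ha).1
  have hlast := la_of_perms_odd hS1 (fun i => Equiv.mulRight ((f i : S) : Γ)) (fun v => v * t)
    (by intro v; simp [mul_assoc, htt])
    (by intro v h; exact ht1 (by simpa using h)) (by
    intro i v n hn0 hn h
    have h1 : ((Equiv.mulRight ((f i : S) : Γ)) ^ n) v = v * ((f i : S) : Γ) ^ n := by
      rw [Equiv.pow_mulRight]
      rfl
    rw [h1] at h
    have h2 : ((f i : S) : Γ) ^ n = 1 := by simpa using h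
    have h3 := orderOf_le_of_pow_eq_one hn0 h2
    have h4 := hord _ (hmemS _ (f i).2) (fun h => htS (h ▸ (f i).2))
    omega) G (by
    intro u v
    rw [hG]
    constructor
    · intro h
      by_cases hut : u⁻¹ * v = t
      · left
        rw [← hut]
        simp
      right
      have h' : u⁻¹ * v ∈ A.erase t := Finset.mem_erase.mpr ⟨hut, h⟩
      rw [hA, Finset.mem_union, Finset.mem_image] at h'
      rcases h' with h | ⟨b, hb, hbe⟩
      · refine ⟨f.symm ⟨_, h⟩, Or.inl ?_⟩
        simp
      · refine ⟨f.symm ⟨b, hb⟩, Or.inr ?_⟩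
        have : b = v⁻¹ * u := by
          rw [← inv_inv b, hbe]
          group
        simp [this]
    · rintro (h | ⟨i, h | h⟩)
      · have : u⁻¹ * v = t := by
          rw [← h]
          simp
        rw [this]
        exact ht
      · have : u⁻¹ * v = ((f i : S) : Γ) := by
          rw [← h]
          simp
        rw [this]
        exact hmemS _ (f i).2
      · have : u⁻¹ * v = (((f i : S) : Γ))⁻¹ := by
          rw [← h]
          simp
        rw [this]
        exact hsym _ (hmemS _ (f i).2)) (by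
    intro v
    rw [hreg v, hcA])
  rw [hlast]
  omega

end Pool.Agent.H250R3.LAC
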